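import Pool.Agent.helper86.NF.SpecC

/-!
# Project nf, module CZ1: class one for `σ < 2/3`
-/

set_option autoImplicit false

open Complex MeasureTheory

namespace Pool.Agent.NF

open Pool.Agent.helper84.DM Pool.Agent.helper78.ED Pool.Agent.DH Pool.Agent.ZD

theorem CZ1 (h1 : NPW_stmt) (h2 : NVM_stmt) (h3 : NMV_stmt) (h4 : NAA_stmt) : CZ1_stmt := by
  intro ε δ hε hδ hδ4
  have hK : 1 ≤ ⌊3 / δ⌋₊ := by
    apply Nat.le_floor
    rw [Nat.cast_one, le_div_iff₀ hδ]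
    linarith
  obtain ⟨κ, hκ, hκ1, h⟩ := h2 ε ⌊3 / δ⌋₊ hε hK
  refine ⟨κ, hκ, hκ1, fun C₁ hC₁ => ?_⟩
  obtain ⟨C, T₀, hC, hNVM⟩ := h C₁ hC₁
  obtain ⟨T₁, hNPW⟩ := h1 δ hδ hδ4
  refine ⟨2 * C, max (max T₀ T₁) 1, by positivity, ?_⟩
  intro T hT σ hσ1 hσ2 N hN1 hN2 a ha W hW hWV
  have hT0 : T₀ ≤ T := ((le_max_left _ _).trans (le_max_left _ _)).trans hT
  have hT1 : T₁ ≤ T := ((le_max_right _ _).trans (le_max_left _ _)).trans hT
  have hT2 : 1 ≤ T := (le_max_right _ _).trans hT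
  have hTpos : 0 < T := by linarith
  have h2σ : 0 < 2 - σ := by linarith
  set β : ℝ := 3 / (2 * (2 - σ)) with hβ
  have hβ1 : 1 ≤ β := by
    rw [hβ, le_div_iff₀ (by linarith)]
    linarith
  have hβ2 : β ≤ 9 / 8 := by
    rw [hβ, div_le_iff₀ (by linarith)]
    linarith
  have hNβ : (N : ℝ) ≤ T ^ (β / ((2 : ℕ) : ℝ)) := by
    refine hN2.trans (Real.rpow_le_rpow_of_exponent_le hT2 ?_)
    push_cast
    linarith
  obtain ⟨k, hk2, hkδ, hk3, hk4⟩ := hNPW T hT1 N 2 β (by norm_num) hβ1 hβ2 hN1 hNβ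
  have hkK : k ≤ ⌊3 / δ⌋₊ := Nat.le_floor hkδ
  have hNpos : 0 < (N : ℝ) := lt_of_lt_of_le (by positivity) hN1
  have hN1' : 1 ≤ N := by exact_mod_cast hNpos
  have hNT : (N : ℝ) ≤ T := by
    refine hN2.trans ?_
    calc T ^ (1 / 2 : ℝ) ≤ T ^ (1 : ℝ) := Real.rpow_le_rpow_of_exponent_le hT2 (by norm_num)
      _ = T := Real.rpow_one T
  have hmain := hNVM T hT0 σ N k hN1' hNT (by omega) hkK a ha W hW hWV
  have hw : wA σ = 3 * (1 - σ) / (2 - σ) := h4.1 σ hσ1 hσ2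
  have hMpos : 0 < (N : ℝ) ^ k := by positivity
  have hwβ : β * (2 - 2 * σ) = 3 * (1 - σ) / (2 - σ) := by
    rw [hβ]
    field_simp
  have hlow : T ^ (1 - 3 * (1 - σ) / (2 - σ)) ≤ ((N : ℝ) ^ k) ^ (2 * σ - 1) := by
    have e1 : (1 - 3 * (1 - σ) / (2 - σ)) = (β * (((2 : ℕ) : ℝ) / (((2 : ℕ) : ℝ) + 1))) * (2 * σ - 1) := by
      rw [hβ]
      push_cast
      field_simp
      ring
    rw [e1, Real.rpow_mul hTpos.le]
    exact Real.rpow_le_rpow (Real.rpow_nonneg hTpos.le _) hk3 (by linarith)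
  have hNM := h3 T ((N : ℝ) ^ k) σ (3 * (1 - σ) / (2 - σ)) β hT2 hMpos hσ1 (by linarith) hk4
    hwβ.le hlow
  have hTε : 0 < T ^ ε := Real.rpow_pos_of_pos hTpos _
  rw [hw, Real.rpow_add hTpos]
  refine hmain.trans ?_
  have h5 := mul_le_mul_of_nonneg_left hNM (by positivity : 0 ≤ C * T ^ ε)
  refine h5.trans (le_of_eq ?_)
  ring

end Pool.Agent.NF
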