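import Pool.Agent.helper4.NF.SpecA

/-!
# Project nf, module DIB: the diagonal terms
-/

set_option autoImplicit false

open Complex MeasureTheory

namespace Pool.Agent.NF

open Pool.Agent.helper84.DM Pool.Agent.helper78.ED Pool.Agent.DH Pool.Agent.ZD

theorem DIB_kap_mono {c Λ z : ℝ} (h0 : 0 ≤ Λ) (h : Λ ≤ c) : kap (c * z) ≤ kap (Λ * z) := by
  unfold kap
  apply one_div_le_one_div_of_le (by positivity)
  have h1 : Λ ^ 2 ≤ c ^ 2 := pow_le_pow_left₀ h0 h 2
  have h2 := mul_le_mul_of_nonneg_right h1 (sq_nonneg z)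
  rw [mul_pow, mul_pow]
  linarith

theorem DIB_kap_cont : Continuous kap := by
  unfold kap
  apply Continuous.div continuous_const (by fun_prop)
  intro x
  positivity

theorem DIB_ZQc (T : ℝ) (A : Finset ℕ) (b : ℕ → ℂ) : Continuous (ZQ T A b) := by
  unfold ZQ
  fun_prop

theorem DIB_ZQ (T : ℝ) (hT : 0 < T) (A : Finset ℕ) (b : ℕ → ℂ) (hb : ∀ n ∈ A, ‖b n‖ ≤ 2) (a : ℝ) :
    ‖ZQ T A b a‖ ≤ Real.sqrt Real.pi * T * ∑ n ∈ A, ∑ n' ∈ A,
      4 * Real.exp (-(T * (a - (Real.log n' - Real.log n))) ^ 2 / 4) := by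
  unfold ZQ
  rw [norm_mul, Complex.norm_real, Real.norm_eq_abs, abs_of_nonneg (by positivity)]
  refine mul_le_mul_of_nonneg_left ?_ (by positivity)
  refine (norm_sum_le _ _).trans (Finset.sum_le_sum fun n hn => ?_)
  refine (norm_sum_le _ _).trans (Finset.sum_le_sum fun n' hn' => ?_)
  rw [norm_mul, norm_mul, Complex.norm_real, Real.norm_eq_abs, abs_of_nonneg (Real.exp_pos _).le,
    RCLike.norm_conj]
  have h1 : a + Real.log n - Real.log n' = a - (Real.log n' - Real.log n) := by ring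
  rw [h1]
  refine mul_le_mul_of_nonneg_right ?_ (Real.exp_pos _).le
  have h2 := mul_le_mul (hb n hn) (hb n' hn') (norm_nonneg _) (by norm_num)
  linarith

theorem DIB (h1 : IID_stmt) (h2 : DII_stmt) (h3 : KGD_stmt) (h4 : GIN_stmt) (h5 : DCT_stmt)
    (h6 : EXB_stmt) : DIB_stmt := by
  intro g hg
  obtain ⟨C₁, hC₁, hK⟩ := h3 g hg
  obtain ⟨C₂, hC₂, hG⟩ := h4
  obtain ⟨C₃, hC₃, hDC⟩ := h5
  refine ⟨4 * Real.sqrt Real.pi * C₁ * C₂ * C₃, by positivity, ?_⟩
  intro T E X D M N b t hT hE hN hNX hXM hd hb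
  set A : Finset ℕ := Finset.Ioc N (4 * N) with hA
  have hA0 : 0 ∉ A := by simp [hA]
  have hT0 : 0 < T := by linarith
  have hNr : (1 : ℝ) ≤ N := by exact_mod_cast hN
  have hX0 : 0 < X := by linarith
  have hGW := h6.2.2.2.2.2 g hg X M
  rw [h1 g hg T X M A b hT0 hA0 t t, h2 (GW g X M) (ZQ T A b) hGW.1 (DIB_ZQc T A b) hGW.2 t]
  have hsupp : ∀ a : ℝ, a ∉ Set.Icc (-5 : ℝ) 5 →
      ex (t * a) * ZQ T A b a * ∫ y : ℝ, GW g X M (y + a) * (starRingEnd ℂ) (GW g X M y) = 0 := by
    intro a ha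
    have h7 : 5 < |a| := by
      by_contra hcon
      push Not at hcon
      exact ha (abs_le.1 hcon)
    rw [(hK X M a).1 h7, mul_zero]
  rw [← setIntegral_eq_integral_of_forall_compl_eq_zero hsupp, integral_Icc_eq_integral_Ioc,
    ← intervalIntegral.integral_of_le (by norm_num)]
  -- the bound
  set φ : ℕ → ℕ → ℤ → ℤ → ℝ → ℝ := fun n n' m m' a =>
    Real.exp (-(T * (a - (Real.log n' - Real.log n))) ^ 2 / 4) *
      kap (X * m * Real.exp a + -(X * m')) with hφ
  have hφc : ∀ n n' m m', Continuous (φ n n' m m') := by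
    intro n n' m m'
    simp only [hφ]
    have h8 := DIB_kap_cont
    exact (by fun_prop : Continuous fun a : ℝ =>
      Real.exp (-(T * (a - (Real.log n' - Real.log n))) ^ 2 / 4)).mul
      (h8.comp (by fun_prop : Continuous fun a : ℝ => X * (m : ℝ) * Real.exp a + -(X * (m' : ℝ))))
  have hbd : ∀ a : ℝ, ‖ex (t * a) * ZQ T A b a *
      ∫ y : ℝ, GW g X M (y + a) * (starRingEnd ℂ) (GW g X M y)‖ ≤
      (4 * Real.sqrt Real.pi * T * C₁ * X ^ 2) *
        ∑ n ∈ A, ∑ n' ∈ A, ∑ m ∈ MM M, ∑ m' ∈ MM M, φ n n' m m' a := by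
    intro a
    have hex : ‖ex (t * a)‖ = 1 := by
      unfold ex
      exact Complex.norm_exp_ofReal_mul_I _
    rw [norm_mul, norm_mul, hex, one_mul]
    have h8 := DIB_ZQ T hT0 A b hb a
    have h9 := (hK X M a).2
    refine (mul_le_mul h8 h9 (norm_nonneg _) (by positivity)).trans (le_of_eq ?_)
    have h10 : ∑ n ∈ A, ∑ n' ∈ A, ∑ m ∈ MM M, ∑ m' ∈ MM M, φ n n' m m' a =
        (∑ n ∈ A, ∑ n' ∈ A, Real.exp (-(T * (a - (Real.log n' - Real.log n))) ^ 2 / 4)) *
        ∑ m ∈ MM M, ∑ m' ∈ MM M, kap (X * ((m : ℝ) * Real.exp a - m')) := by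
      rw [Finset.sum_mul]
      refine Finset.sum_congr rfl fun n _ => ?_
      rw [Finset.sum_mul]
      refine Finset.sum_congr rfl fun n' _ => ?_
      rw [Finset.mul_sum]
      refine Finset.sum_congr rfl fun m _ => ?_
      rw [Finset.mul_sum]
      refine Finset.sum_congr rfl fun m' _ => ?_
      simp only [hφ]
      congr 2
      ring
    rw [h10]
    have h11 : ∑ n ∈ A, ∑ n' ∈ A, 4 * Real.exp (-(T * (a - (Real.log n' - Real.log n))) ^ 2 / 4) =
        4 * ∑ n ∈ A, ∑ n' ∈ A, Real.exp (-(T * (a - (Real.log n' - Real.log n))) ^ 2 / 4) := by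
      rw [Finset.mul_sum]
      refine Finset.sum_congr rfl fun n _ => ?_
      rw [Finset.mul_sum]
    rw [h11]
    ring
  have hφi : ∀ n n' m m', IntervalIntegrable (φ n n' m m') volume (-5) 5 := fun n n' m m' =>
    (hφc n n' m m').intervalIntegrable _ _
  have hcont : Continuous fun a => (4 * Real.sqrt Real.pi * T * C₁ * X ^ 2) *
        ∑ n ∈ A, ∑ n' ∈ A, ∑ m ∈ MM M, ∑ m' ∈ MM M, φ n n' m m' a := by
    refine continuous_const.mul ?_
    refine continuous_finsetSum _ fun n _ => continuous_finsetSum _ fun n' _ =>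
      continuous_finsetSum _ fun m _ => continuous_finsetSum _ fun m' _ => hφc n n' m m'
  have hmain := intervalIntegral.norm_integral_le_of_norm_le (μ := volume) (a := (-5 : ℝ)) (b := 5)
    (f := fun a : ℝ => ex (t * a) * ZQ T A b a *
      ∫ y : ℝ, GW g X M (y + a) * (starRingEnd ℂ) (GW g X M y))
    (g := fun a => (4 * Real.sqrt Real.pi * T * C₁ * X ^ 2) *
        ∑ n ∈ A, ∑ n' ∈ A, ∑ m ∈ MM M, ∑ m' ∈ MM M, φ n n' m m' a)
    (by norm_num) (Filter.Eventually.of_forall fun a _ => hbd a) (hcont.intervalIntegrable _ _)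
  refine hmain.trans ?_
  rw [intervalIntegral.integral_const_mul]
  have hI : ∫ a in (-5 : ℝ)..5, ∑ n ∈ A, ∑ n' ∈ A, ∑ m ∈ MM M, ∑ m' ∈ MM M, φ n n' m m' a =
      ∑ n ∈ A, ∑ n' ∈ A, ∑ m ∈ MM M, ∑ m' ∈ MM M, ∫ a in (-5 : ℝ)..5, φ n n' m m' a := by
    rw [intervalIntegral.integral_finsetSum]
    · refine Finset.sum_congr rfl fun n _ => ?_
      rw [intervalIntegral.integral_finsetSum]
      · refine Finset.sum_congr rfl fun n' _ => ?_
        rw [intervalIntegral.integral_finsetSum]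
        · refine Finset.sum_congr rfl fun m _ => ?_
          rw [intervalIntegral.integral_finsetSum]
          intro m' _
          exact hφi n n' m m'
        · intro m _
          exact (continuous_finsetSum _ fun m' _ => hφc n n' m m').intervalIntegrable _ _
      · intro n' _
        exact (continuous_finsetSum _ fun m _ => continuous_finsetSum _ fun m' _ =>
          hφc n n' m m').intervalIntegrable _ _
    · intro n _
      exact (continuous_finsetSum _ fun n' _ => continuous_finsetSum _ fun m _ =>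
        continuous_finsetSum _ fun m' _ => hφc n n' m m').intervalIntegrable _ _
  rw [hI]
  have hΛ : 1 / 4 ≤ X / (4 * N) := by
    rw [div_le_div_iff₀ (by norm_num) (by positivity)]
    linarith
  have hterm : ∀ n ∈ A, ∀ n' ∈ A, ∀ m ∈ MM M, ∀ m' ∈ MM M, ∫ a in (-5 : ℝ)..5, φ n n' m m' a ≤
      C₂ * E ^ 2 / T * kap (X / (4 * N) * ((m : ℝ) * n' - m' * n)) := by
    intro n hn n' hn' m hm m' hm'
    rw [hA, Finset.mem_Ioc] at hn hn'
    have hnr : (N : ℝ) < n := by exact_mod_cast hn.1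
    have hnr2 : (n : ℝ) ≤ 4 * N := by exact_mod_cast hn.2
    have hnr' : (N : ℝ) < n' := by exact_mod_cast hn'.1
    have hnr2' : (n' : ℝ) ≤ 4 * N := by exact_mod_cast hn'.2
    have hn0 : (0 : ℝ) < n := by linarith
    have hn0' : (0 : ℝ) < n' := by linarith
    have hlog4 : Real.log 4 ≤ 7 := by
      have := Real.log_le_sub_one_of_pos (show (0 : ℝ) < 4 by norm_num)
      linarith
    have hy : |Real.log n' - Real.log n| ≤ 7 := by
      rw [abs_le]
      constructor
      · have h12 : Real.log n ≤ Real.log (4 * n') := Real.log_le_log hn0 (by linarith)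
        rw [Real.log_mul (by norm_num) hn0'.ne'] at h12
        linarith
      · have h12 : Real.log n' ≤ Real.log (4 * n) := Real.log_le_log hn0' (by linarith)
        rw [Real.log_mul (by norm_num) hn0.ne'] at h12
        linarith
    have hm1 : |(m : ℝ)| ≤ M := by
      have h13 : m ∈ Finset.Icc (-(M : ℤ)) M := by
        unfold MM at hm
        first
          | exact (Finset.mem_filter.1 hm).1
          | exact Finset.mem_of_mem_erase hm
          | exact (Finset.mem_sdiff.1 hm).1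
      rw [Finset.mem_Icc] at h13
      rw [abs_le]
      constructor
      · exact_mod_cast h13.1
      · exact_mod_cast h13.2
    have hα : |X * m| ≤ E * T := by
      rw [abs_mul, abs_of_pos hX0]
      exact (mul_le_mul_of_nonneg_left hm1 hX0.le).trans hXM
    have h14 := hG T E (X * m) (-(X * m')) (Real.log n' - Real.log n) hT hE hα hy
    refine h14.trans (mul_le_mul_of_nonneg_left ?_ (by positivity))
    have h15 : X * m * Real.exp (Real.log n' - Real.log n) + -(X * m') =
        X / n * ((m : ℝ) * n' - m' * n) := by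
      rw [Real.exp_sub, Real.exp_log hn0', Real.exp_log hn0]
      field_simp
      ring
    rw [h15]
    exact DIB_kap_mono (by positivity) (div_le_div_of_nonneg_left hX0.le hn0 hnr2)
  have hsum : ∑ n ∈ A, ∑ n' ∈ A, ∑ m ∈ MM M, ∑ m' ∈ MM M, ∫ a in (-5 : ℝ)..5, φ n n' m m' a ≤
      C₂ * E ^ 2 / T * (C₃ * M * N * D) := by
    refine le_trans ?_ (mul_le_mul_of_nonneg_left (hDC M N D (X / (4 * N)) hN hΛ hd) (by positivity))
    rw [Finset.mul_sum]
    refine Finset.sum_le_sum fun n hn => ?_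
    rw [Finset.mul_sum]
    refine Finset.sum_le_sum fun n' hn' => ?_
    rw [Finset.mul_sum]
    refine Finset.sum_le_sum fun m hm => ?_
    rw [Finset.mul_sum]
    exact Finset.sum_le_sum fun m' hm' => hterm n hn n' hn' m hm m' hm'
  refine (mul_le_mul_of_nonneg_left hsum (by positivity)).trans (le_of_eq ?_)
  field_simp

end Pool.Agent.NF
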